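import Mathlib

/-!
Logarithmic (base 3) form of the recurrence with `α = 3 ^ 2000`, `B = 3 ^ (-10000)`,
`A = 3 ^ (-100000)`, and the covering relations for thirteen steps.
-/

namespace Pool.Agent.W_MP_415091_an

open Filter Topology Set

/-- One step of the recurrence in base 3 logarithms. -/
noncomputable def nx (X Y Z : ℝ) : ℝ :=
  Real.logb 3 ((3 : ℝ) ^ (2000 : ℝ) + (3 : ℝ) ^ X) -
    Real.logb 3 ((3 : ℝ) ^ (-100000 : ℝ) + (3 : ℝ) ^ (-10000 : ℝ) * (3 : ℝ) ^ Z + (3 : ℝ) ^ Y)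

theorem nx_continuous : Continuous (fun p : ℝ × ℝ × ℝ => nx p.1 p.2.1 p.2.2) := by
  have h3 : ∀ f : ℝ × ℝ × ℝ → ℝ, Continuous f → Continuous (fun p => (3 : ℝ) ^ f p) := by
    intro f hf
    exact continuous_const.rpow hf (fun _ => Or.inl (by norm_num))
  unfold nx
  have hp : ∀ x : ℝ, 0 < (3 : ℝ) ^ x := fun x => Real.rpow_pos_of_pos (by norm_num) x
  refine Continuous.sub ?_ ?_
  · refine Continuous.logb ?_ (fun p => ?_)
    · exact continuous_const.add (h3 _ continuous_fst)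
    · have := hp p.1
      have := hp 2000
      positivity
  · refine Continuous.logb ?_ (fun p => ?_)
    · refine (continuous_const.add (continuous_const.mul (h3 _ ?_))).add (h3 _ ?_)
      · exact continuous_snd.comp continuous_snd
      · exact continuous_fst.comp continuous_snd
    · have := hp p.2.1
      have := hp p.2.2
      have := hp (-100000)
      have := hp (-10000)
      positivity

theorem le_logb_of_le {a x : ℝ} (h : (3 : ℝ) ^ a ≤ x) : a ≤ Real.logb 3 x := by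
  have hx : 0 < x := lt_of_lt_of_le (Real.rpow_pos_of_pos (by norm_num) a) h
  rwa [Real.le_logb_iff_rpow_le (by norm_num) hx]

theorem logb_le_of_le {a x : ℝ} (hx : 0 < x) (h : x ≤ (3 : ℝ) ^ a) : Real.logb 3 x ≤ a := by
  rwa [Real.logb_le_iff_le_rpow (by norm_num) hx]

theorem rpow_mono {a b : ℝ} (h : a ≤ b) : (3 : ℝ) ^ a ≤ (3 : ℝ) ^ b :=
  Real.rpow_le_rpow_of_exponent_le (by norm_num) h

theorem logb_add_two {a b M : ℝ} (hM : max a b = M) :
    M ≤ Real.logb 3 ((3 : ℝ) ^ a + (3 : ℝ) ^ b) ∧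
      Real.logb 3 ((3 : ℝ) ^ a + (3 : ℝ) ^ b) ≤ M + 1 := by
  have hp : ∀ x : ℝ, 0 < (3 : ℝ) ^ x := fun x => Real.rpow_pos_of_pos (by norm_num) x
  have hs : ∀ x : ℝ, (3 : ℝ) ^ (x + 1) = 3 * (3 : ℝ) ^ x := fun x => by
    rw [Real.rpow_add_one (by norm_num)]; ring
  have h1 : a ≤ M := hM ▸ le_max_left _ _
  have h2 : b ≤ M := hM ▸ le_max_right _ _
  constructor
  · apply le_logb_of_le
    rcases max_choice a b with h | h
    · rw [← hM, h]; linarith [hp b]
    · rw [← hM, h]; linarith [hp a]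
  · apply logb_le_of_le (by linarith [hp a, hp b])
    rw [hs]
    linarith [rpow_mono h1, rpow_mono h2, hp M]

theorem logb_add_three {a b c N : ℝ} (hN : max (max a b) c = N) :
    N ≤ Real.logb 3 ((3 : ℝ) ^ a + (3 : ℝ) ^ b + (3 : ℝ) ^ c) ∧
      Real.logb 3 ((3 : ℝ) ^ a + (3 : ℝ) ^ b + (3 : ℝ) ^ c) ≤ N + 1 := by
  have hp : ∀ x : ℝ, 0 < (3 : ℝ) ^ x := fun x => Real.rpow_pos_of_pos (by norm_num) x
  have hs : ∀ x : ℝ, (3 : ℝ) ^ (x + 1) = 3 * (3 : ℝ) ^ x := fun x => by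
    rw [Real.rpow_add_one (by norm_num)]; ring
  have h1 : a ≤ N := hN ▸ (le_max_left _ _).trans (le_max_left _ _)
  have h2 : b ≤ N := hN ▸ (le_max_right _ _).trans (le_max_left _ _)
  have h3 : c ≤ N := hN ▸ le_max_right _ _
  constructor
  · apply le_logb_of_le
    rcases max_choice (max a b) c with h | h
    · rcases max_choice a b with h' | h'
      · rw [← hN, h, h']; linarith [hp b, hp c]
      · rw [← hN, h, h']; linarith [hp a, hp c]
    · rw [← hN, h]; linarith [hp a, hp b]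
  · apply logb_le_of_le (by linarith [hp a, hp b, hp c])
    rw [hs]
    linarith [rpow_mono h1, rpow_mono h2, rpow_mono h3]

theorem nx_bounds {X Y Z M N : ℝ} (hM : max 2000 X = M)
    (hN : max (max (-100000) (Z - 10000)) Y = N) :
    M - N - 1 ≤ nx X Y Z ∧ nx X Y Z ≤ M - N + 1 := by
  have hBZ : (3 : ℝ) ^ (-10000 : ℝ) * (3 : ℝ) ^ Z = (3 : ℝ) ^ (Z - 10000) := by
    rw [← Real.rpow_add (by norm_num)]; ring_nf
  have h1 := logb_add_two hM
  have h2 := logb_add_three hN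
  unfold nx
  rw [hBZ]
  constructor
  · exact (sub_le_sub h1.1 h2.2).trans' (le_of_eq (by ring))
  · exact (sub_le_sub h1.2 h2.1).trans (le_of_eq (by ring))

/-- Numerator dominated by `X`, denominator by `Y`. -/
theorem nx_XY {X Y Z : ℝ} (h1 : 2000 ≤ X) (h2 : -100000 ≤ Y) (h3 : Z - 10000 ≤ Y) :
    X - Y - 1 ≤ nx X Y Z ∧ nx X Y Z ≤ X - Y + 1 :=
  nx_bounds (max_eq_right h1) (max_eq_right (max_le h2 h3))

/-- Numerator dominated by `X`, denominator by `Z`. -/
theorem nx_XZ {X Y Z : ℝ} (h1 : 2000 ≤ X) (h2 : -100000 ≤ Z - 10000) (h3 : Y ≤ Z - 10000) :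
    X - (Z - 10000) - 1 ≤ nx X Y Z ∧ nx X Y Z ≤ X - (Z - 10000) + 1 :=
  nx_bounds (max_eq_right h1) (by rw [max_eq_right h2, max_eq_left h3])

/-- Numerator dominated by `α`, denominator by `Y`. -/
theorem nx_aY {X Y Z : ℝ} (h1 : X ≤ 2000) (h2 : -100000 ≤ Y) (h3 : Z - 10000 ≤ Y) :
    2000 - Y - 1 ≤ nx X Y Z ∧ nx X Y Z ≤ 2000 - Y + 1 :=
  nx_bounds (max_eq_left h1) (max_eq_right (max_le h2 h3))

/-- Numerator dominated by `α`, denominator by `Z`. -/
theorem nx_aZ {X Y Z : ℝ} (h1 : X ≤ 2000) (h2 : -100000 ≤ Z - 10000) (h3 : Y ≤ Z - 10000) :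
    2000 - (Z - 10000) - 1 ≤ nx X Y Z ∧ nx X Y Z ≤ 2000 - (Z - 10000) + 1 :=
  nx_bounds (max_eq_left h1) (by rw [max_eq_right h2, max_eq_left h3])

/-- The first box, `11100 ≤ v ≤ 11315` being the second. -/
def lo (i : Bool) : ℝ := if i then 11100 else 10830

def hi (i : Bool) : ℝ := if i then 11315 else 10940

/-- The two boxes. -/
def Box (i : Bool) : Set (ℝ × ℝ × ℝ) :=
  {p | lo i ≤ p.1 ∧ p.1 ≤ hi i ∧ 11999 ≤ p.2.1 + p.1 ∧ p.2.1 + p.1 ≤ 12001 ∧
    1999 ≤ p.2.2 + p.1 ∧ p.2.2 + p.1 ≤ 2001}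

/-- Thirteen steps from the first box. -/
theorem cover_false (X : ℕ → ℝ) (hX : ∀ n, X (n + 3) = nx (X n) (X (n + 1)) (X (n + 2)))
    (n : ℕ) (h : (X n, X (n + 1), X (n + 2)) ∈ Box false) :
    8 * X n - 76100 ≤ X (n + 13) ∧ X (n + 13) ≤ 8 * X n - 75900 ∧
    11999 ≤ X (n + 14) + X (n + 13) ∧ X (n + 14) + X (n + 13) ≤ 12001 ∧
    1999 ≤ X (n + 15) + X (n + 13) ∧ X (n + 15) + X (n + 13) ≤ 2001 := by
  obtain ⟨h1, h2, h3, h4, h5, h6⟩ := h
  simp only [lo, hi, Bool.false_eq_true, if_false] at h1 h2 h3 h4 h5 h6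
  have s3 := nx_XY (X := X n) (Y := X (n + 1)) (Z := X (n + 2)) (by linarith) (by linarith)
    (by linarith)
  rw [← hX n] at s3
  have s4 := nx_aZ (X := X (n + 1)) (Y := X (n + 2)) (Z := X (n + 3)) (by linarith) (by linarith)
    (by linarith)
  rw [← hX (n + 1)] at s4
  have s5 := nx_aY (X := X (n + 2)) (Y := X (n + 3)) (Z := X (n + 4)) (by linarith) (by linarith)
    (by linarith)
  rw [← hX (n + 2)] at s5
  have s6 := nx_XY (X := X (n + 3)) (Y := X (n + 4)) (Z := X (n + 5)) (by linarith) (by linarith)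
    (by linarith)
  rw [← hX (n + 3)] at s6
  have s7 := nx_XZ (X := X (n + 4)) (Y := X (n + 5)) (Z := X (n + 6)) (by linarith) (by linarith)
    (by linarith)
  rw [← hX (n + 4)] at s7
  have s8 := nx_aY (X := X (n + 5)) (Y := X (n + 6)) (Z := X (n + 7)) (by linarith) (by linarith)
    (by linarith)
  rw [← hX (n + 5)] at s8
  have s9 := nx_XY (X := X (n + 6)) (Y := X (n + 7)) (Z := X (n + 8)) (by linarith) (by linarith)
    (by linarith)
  rw [← hX (n + 6)] at s9
  have s10 := nx_XY (X := X (n + 7)) (Y := X (n + 8)) (Z := X (n + 9)) (by linarith) (by linarith)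
    (by linarith)
  rw [← hX (n + 7)] at s10
  have s11 := nx_aY (X := X (n + 8)) (Y := X (n + 9)) (Z := X (n + 10)) (by linarith) (by linarith)
    (by linarith)
  rw [← hX (n + 8)] at s11
  have s12 := nx_XY (X := X (n + 9)) (Y := X (n + 10)) (Z := X (n + 11)) (by linarith)
    (by linarith) (by linarith)
  rw [← hX (n + 9)] at s12
  have s13 := nx_XY (X := X (n + 10)) (Y := X (n + 11)) (Z := X (n + 12)) (by linarith)
    (by linarith) (by linarith)
  rw [← hX (n + 10)] at s13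
  have s14 := nx_aZ (X := X (n + 11)) (Y := X (n + 12)) (Z := X (n + 13)) (by linarith)
    (by linarith) (by linarith)
  rw [← hX (n + 11)] at s14
  have s15 := nx_aY (X := X (n + 12)) (Y := X (n + 13)) (Z := X (n + 14)) (by linarith)
    (by linarith) (by linarith)
  rw [← hX (n + 12)] at s15
  refine ⟨?_, ?_, ?_, ?_, ?_, ?_⟩ <;> linarith

/-- Thirteen steps from the second box. -/
theorem cover_true (X : ℕ → ℝ) (hX : ∀ n, X (n + 3) = nx (X n) (X (n + 1)) (X (n + 2)))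
    (n : ℕ) (h : (X n, X (n + 1), X (n + 2)) ∈ Box true) :
    55920 - 4 * X n ≤ X (n + 13) ∧ X (n + 13) ≤ 56080 - 4 * X n ∧
    11999 ≤ X (n + 14) + X (n + 13) ∧ X (n + 14) + X (n + 13) ≤ 12001 ∧
    1999 ≤ X (n + 15) + X (n + 13) ∧ X (n + 15) + X (n + 13) ≤ 2001 := by
  obtain ⟨h1, h2, h3, h4, h5, h6⟩ := h
  simp only [lo, hi, if_true] at h1 h2 h3 h4 h5 h6
  have s3 := nx_XY (X := X n) (Y := X (n + 1)) (Z := X (n + 2)) (by linarith) (by linarith)
    (by linarith)
  rw [← hX n] at s3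
  have s4 := nx_aZ (X := X (n + 1)) (Y := X (n + 2)) (Z := X (n + 3)) (by linarith) (by linarith)
    (by linarith)
  rw [← hX (n + 1)] at s4
  have s5 := nx_aY (X := X (n + 2)) (Y := X (n + 3)) (Z := X (n + 4)) (by linarith) (by linarith)
    (by linarith)
  rw [← hX (n + 2)] at s5
  have s6 := nx_XY (X := X (n + 3)) (Y := X (n + 4)) (Z := X (n + 5)) (by linarith) (by linarith)
    (by linarith)
  rw [← hX (n + 3)] at s6
  have s7 := nx_aZ (X := X (n + 4)) (Y := X (n + 5)) (Z := X (n + 6)) (by linarith) (by linarith)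
    (by linarith)
  rw [← hX (n + 4)] at s7
  have s8 := nx_aY (X := X (n + 5)) (Y := X (n + 6)) (Z := X (n + 7)) (by linarith) (by linarith)
    (by linarith)
  rw [← hX (n + 5)] at s8
  have s9 := nx_XY (X := X (n + 6)) (Y := X (n + 7)) (Z := X (n + 8)) (by linarith) (by linarith)
    (by linarith)
  rw [← hX (n + 6)] at s9
  have s10 := nx_XZ (X := X (n + 7)) (Y := X (n + 8)) (Z := X (n + 9)) (by linarith) (by linarith)
    (by linarith)
  rw [← hX (n + 7)] at s10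
  have s11 := nx_aY (X := X (n + 8)) (Y := X (n + 9)) (Z := X (n + 10)) (by linarith) (by linarith)
    (by linarith)
  rw [← hX (n + 8)] at s11
  have s12 := nx_XY (X := X (n + 9)) (Y := X (n + 10)) (Z := X (n + 11)) (by linarith)
    (by linarith) (by linarith)
  rw [← hX (n + 9)] at s12
  have s13 := nx_XY (X := X (n + 10)) (Y := X (n + 11)) (Z := X (n + 12)) (by linarith)
    (by linarith) (by linarith)
  rw [← hX (n + 10)] at s13
  have s14 := nx_aZ (X := X (n + 11)) (Y := X (n + 12)) (Z := X (n + 13)) (by linarith)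
    (by linarith) (by linarith)
  rw [← hX (n + 11)] at s14
  have s15 := nx_aY (X := X (n + 12)) (Y := X (n + 13)) (Z := X (n + 14)) (by linarith)
    (by linarith) (by linarith)
  rw [← hX (n + 12)] at s15
  refine ⟨?_, ?_, ?_, ?_, ?_, ?_⟩ <;> linarith

end Pool.Agent.W_MP_415091_an
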