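import Pool.Agent.W_MP_415091_an.Basic

/-!
Symbolic dynamics from the covering relations, by nested intervals.
-/

namespace Pool.Agent.W_MP_415091_an

open Filter Topology Set

/-- The map on triples of consecutive logarithms. -/
noncomputable def Phi (p : ℝ × ℝ × ℝ) : ℝ × ℝ × ℝ := (p.2.1, p.2.2, nx p.1 p.2.1 p.2.2)

theorem Phi_continuous : Continuous Phi :=
  (continuous_fst.comp continuous_snd).prodMk
    ((continuous_snd.comp continuous_snd).prodMk nx_continuous)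

/-- Thirteen steps. -/
noncomputable def G : ℝ × ℝ × ℝ → ℝ × ℝ × ℝ := Phi^[13]

theorem G_continuous : Continuous G := Phi_continuous.iterate 13

theorem Phi_iter (p : ℝ × ℝ × ℝ) (n : ℕ) :
    Phi^[n] p = ((Phi^[n] p).1, (Phi^[n + 1] p).1, (Phi^[n + 2] p).1) := by
  rw [Function.iterate_succ_apply' Phi (n + 1), Function.iterate_succ_apply' Phi n]
  rfl

theorem Phi_iter_rec (p : ℝ × ℝ × ℝ) (n : ℕ) :
    (Phi^[n + 3] p).1 = nx (Phi^[n] p).1 (Phi^[n + 1] p).1 (Phi^[n + 2] p).1 := by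
  have h := Phi_iter p n
  rw [Function.iterate_succ_apply' Phi (n + 2), Function.iterate_succ_apply' Phi (n + 1),
    Function.iterate_succ_apply' Phi n]
  rfl

theorem G_false {p : ℝ × ℝ × ℝ} (h : p ∈ Box false) :
    8 * p.1 - 76100 ≤ (G p).1 ∧ (G p).1 ≤ 8 * p.1 - 75900 ∧
    11999 ≤ (G p).2.1 + (G p).1 ∧ (G p).2.1 + (G p).1 ≤ 12001 ∧
    1999 ≤ (G p).2.2 + (G p).1 ∧ (G p).2.2 + (G p).1 ≤ 2001 := by
  have h13 := Phi_iter p 13
  have h21 : (G p).2.1 = (Phi^[14] p).1 := by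
    unfold G; rw [h13]
  have h22 : (G p).2.2 = (Phi^[15] p).1 := by
    unfold G; rw [h13]
  rw [h21, h22]
  exact cover_false (fun n => (Phi^[n] p).1) (Phi_iter_rec p) 0 h

theorem G_true {p : ℝ × ℝ × ℝ} (h : p ∈ Box true) :
    55920 - 4 * p.1 ≤ (G p).1 ∧ (G p).1 ≤ 56080 - 4 * p.1 ∧
    11999 ≤ (G p).2.1 + (G p).1 ∧ (G p).2.1 + (G p).1 ≤ 12001 ∧
    1999 ≤ (G p).2.2 + (G p).1 ∧ (G p).2.2 + (G p).1 ≤ 2001 := by
  have h13 := Phi_iter p 13
  have h21 : (G p).2.1 = (Phi^[14] p).1 := by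
    unfold G; rw [h13]
  have h22 : (G p).2.2 = (Phi^[15] p).1 := by
    unfold G; rw [h13]
  rw [h21, h22]
  exact cover_true (fun n => (Phi^[n] p).1) (Phi_iter_rec p) 0 h

theorem G_mem {p : ℝ × ℝ × ℝ} {i j : Bool} (h : p ∈ Box i) (h1 : lo j ≤ (G p).1)
    (h2 : (G p).1 ≤ hi j) : G p ∈ Box j := by
  cases i
  · exact ⟨h1, h2, (G_false h).2.2⟩
  · exact ⟨h1, h2, (G_true h).2.2⟩

theorem exists_sub {h : ℝ → ℝ} {a b l r : ℝ} (hab : a ≤ b) (hc : ContinuousOn h (Icc a b))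
    (hl : h a ≤ l) (hr : r ≤ h b) (hlr : l < r) :
    ∃ a' b', a ≤ a' ∧ a' ≤ b' ∧ b' ≤ b ∧ h a' = l ∧ h b' = r ∧
      ∀ t ∈ Icc a' b', l ≤ h t ∧ h t ≤ r := by
  have hS : IsCompact (Icc a b ∩ h ⁻¹' Ici r) :=
    isCompact_Icc.of_isClosed_subset (hc.preimage_isClosed_of_isClosed isClosed_Icc isClosed_Ici)
      inter_subset_left
  obtain ⟨b', ⟨hb'1, hb'2⟩, hb'3⟩ := hS.exists_isLeast ⟨b, ⟨hab, le_rfl⟩, hr⟩
  have hb'r : h b' = r := by
    have hc' : ContinuousOn h (Icc a b') := hc.mono (Icc_subset_Icc le_rfl hb'1.2)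
    obtain ⟨t, ht1, ht2⟩ := intermediate_value_Icc hb'1.1 hc' ⟨hl.trans hlr.le, hb'2⟩
    have := hb'3 ⟨⟨ht1.1, ht1.2.trans hb'1.2⟩, ht2.ge⟩
    rw [← le_antisymm ht1.2 this, ht2]
  have hcb : ContinuousOn h (Icc a b') := hc.mono (Icc_subset_Icc le_rfl hb'1.2)
  have hT : IsCompact (Icc a b' ∩ h ⁻¹' Iic l) :=
    isCompact_Icc.of_isClosed_subset (hcb.preimage_isClosed_of_isClosed isClosed_Icc isClosed_Iic)
      inter_subset_left
  obtain ⟨a', ⟨ha'1, ha'2⟩, ha'3⟩ := hT.exists_isGreatest ⟨a, ⟨le_rfl, hb'1.1⟩, hl⟩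
  have ha'l : h a' = l := by
    have hc' : ContinuousOn h (Icc a' b') := hcb.mono (Icc_subset_Icc ha'1.1 le_rfl)
    obtain ⟨t, ht1, ht2⟩ := intermediate_value_Icc ha'1.2 hc' ⟨ha'2, by rw [hb'r]; exact hlr.le⟩
    have := ha'3 ⟨⟨ha'1.1.trans ht1.1, ht1.2⟩, ht2.le⟩
    rw [← le_antisymm this ht1.1, ht2]
  refine ⟨a', b', ha'1.1, ha'1.2, hb'1.2, ha'l, hb'r, fun t ht => ⟨?_, ?_⟩⟩
  · by_contra hlt
    push Not at hlt
    have := ha'3 ⟨⟨ha'1.1.trans ht.1, ht.2⟩, hlt.le⟩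
    rw [le_antisymm this ht.1, ha'l] at hlt
    exact lt_irrefl _ hlt
  · by_contra hlt
    push Not at hlt
    have := hb'3 ⟨⟨ha'1.1.trans ht.1, ht.2.trans hb'1.2⟩, hlt.le⟩
    rw [le_antisymm ht.2 this, hb'r] at hlt
    exact lt_irrefl _ hlt

theorem exists_sub' {h : ℝ → ℝ} {a b l r : ℝ} (hab : a ≤ b) (hc : ContinuousOn h (Icc a b))
    (hl : h b ≤ l) (hr : r ≤ h a) (hlr : l < r) :
    ∃ a' b', a ≤ a' ∧ a' ≤ b' ∧ b' ≤ b ∧ h a' = r ∧ h b' = l ∧
      ∀ t ∈ Icc a' b', l ≤ h t ∧ h t ≤ r := by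
  have hc' : ContinuousOn (fun t => h (-t)) (Icc (-b) (-a)) := by
    refine hc.comp continuous_neg.continuousOn (fun t ht => ?_)
    exact ⟨by linarith [ht.2], by linarith [ht.1]⟩
  obtain ⟨a', b', h1, h2, h3, h4, h5, h6⟩ :=
    exists_sub (h := fun t => h (-t)) (neg_le_neg hab) hc' (l := l) (r := r)
      (by simpa using hl) (by simpa using hr) hlr
  refine ⟨-b', -a', by linarith, by linarith, by linarith, h5, h4, fun t ht => ?_⟩
  have := h6 (-t) ⟨by linarith [ht.2], by linarith [ht.1]⟩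
  simpa using this

theorem lo_lt_hi (i : Bool) : lo i < hi i := by
  cases i <;> norm_num [lo, hi]

theorem lo_ge (i : Bool) : 10830 ≤ lo i := by
  cases i <;> norm_num [lo]

theorem hi_le (i : Bool) : hi i ≤ 11315 := by
  cases i <;> norm_num [hi]

/-- The image of a face lies on the correct side of both boxes. -/
theorem face {p q : ℝ × ℝ × ℝ} {i j : Bool} (hp : p ∈ Box i) (hq : q ∈ Box i)
    (h : p.1 = lo i ∧ q.1 = hi i) :
    ((G p).1 ≤ lo j ∧ hi j ≤ (G q).1) ∨ ((G q).1 ≤ lo j ∧ hi j ≤ (G p).1) := by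
  have h1 := lo_ge j
  have h2 := hi_le j
  cases i
  · left
    have h3 := G_false hp
    have h4 := G_false hq
    rw [h.1] at h3
    rw [h.2] at h4
    simp only [lo, hi, Bool.false_eq_true, if_false] at h3 h4
    constructor
    · linarith [h3.2.1]
    · linarith [h4.1]
  · right
    have h3 := G_true hp
    have h4 := G_true hq
    rw [h.1] at h3
    rw [h.2] at h4
    simp only [lo, hi, if_true] at h3 h4
    constructor
    · linarith [h4.2.1]
    · linarith [h3.1]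

theorem chain (k : ℕ) : ∀ (s : ℕ → Bool) (f : ℝ → ℝ × ℝ × ℝ) (a b : ℝ), a ≤ b →
    ContinuousOn f (Icc a b) → (∀ t ∈ Icc a b, f t ∈ Box (s 0)) →
    (((f a).1 = lo (s 0) ∧ (f b).1 = hi (s 0)) ∨ ((f b).1 = lo (s 0) ∧ (f a).1 = hi (s 0))) →
    ∃ t ∈ Icc a b, ∀ j ≤ k, G^[j] (f t) ∈ Box (s j) := by
  induction k with
  | zero =>
    intro s f a b hab _ hbox _
    refine ⟨a, left_mem_Icc.2 hab, fun j hj => ?_⟩
    obtain rfl : j = 0 := by omega
    exact hbox a (left_mem_Icc.2 hab)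
  | succ k ih =>
    intro s f a b hab hc hbox hface
    have hcg : ContinuousOn (fun t => G (f t)) (Icc a b) := G_continuous.comp_continuousOn hc
    have hch : ContinuousOn (fun t => (G (f t)).1) (Icc a b) :=
      continuous_fst.comp_continuousOn hcg
    have hfa := hbox a (left_mem_Icc.2 hab)
    have hfb := hbox b (right_mem_Icc.2 hab)
    have key : ((G (f a)).1 ≤ lo (s 1) ∧ hi (s 1) ≤ (G (f b)).1) ∨
        ((G (f b)).1 ≤ lo (s 1) ∧ hi (s 1) ≤ (G (f a)).1) := by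
      rcases hface with h | h
      · exact face hfa hfb h
      · exact (face hfb hfa h).symm
    have sub : ∃ a' b', a ≤ a' ∧ a' ≤ b' ∧ b' ≤ b ∧
        ((((G (f a')).1 = lo (s 1) ∧ (G (f b')).1 = hi (s 1)) ∨
          ((G (f b')).1 = lo (s 1) ∧ (G (f a')).1 = hi (s 1)))) ∧
        ∀ t ∈ Icc a' b', lo (s 1) ≤ (G (f t)).1 ∧ (G (f t)).1 ≤ hi (s 1) := by
      rcases key with h | h
      · obtain ⟨a', b', h1, h2, h3, h4, h5, h6⟩ := exists_sub hab hch h.1 h.2 (lo_lt_hi _)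
        exact ⟨a', b', h1, h2, h3, Or.inl ⟨h4, h5⟩, h6⟩
      · obtain ⟨a', b', h1, h2, h3, h4, h5, h6⟩ := exists_sub' hab hch h.1 h.2 (lo_lt_hi _)
        exact ⟨a', b', h1, h2, h3, Or.inr ⟨h5, h4⟩, h6⟩
    obtain ⟨a', b', h1, h2, h3, h4, h5⟩ := sub
    have hsub : Icc a' b' ⊆ Icc a b := Icc_subset_Icc h1 h3
    obtain ⟨t, ht, htj⟩ := ih (fun j => s (j + 1)) (fun t => G (f t)) a' b' h2 (hcg.mono hsub)
      (fun t ht => G_mem (hbox t (hsub ht)) (h5 t ht).1 (h5 t ht).2) h4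
    refine ⟨t, hsub ht, fun j hj => ?_⟩
    cases j with
    | zero => exact hbox t (hsub ht)
    | succ j =>
      rw [Function.iterate_succ_apply]
      exact htj j (by omega)

theorem Box_closed (i : Bool) : IsClosed (Box i) := by
  have e : Box i = {p : ℝ × ℝ × ℝ | lo i ≤ p.1} ∩ ({p : ℝ × ℝ × ℝ | p.1 ≤ hi i} ∩
      ({p : ℝ × ℝ × ℝ | 11999 ≤ p.2.1 + p.1} ∩ ({p : ℝ × ℝ × ℝ | p.2.1 + p.1 ≤ 12001} ∩
      ({p : ℝ × ℝ × ℝ | 1999 ≤ p.2.2 + p.1} ∩ {p : ℝ × ℝ × ℝ | p.2.2 + p.1 ≤ 2001})))) := by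
    rfl
  rw [e]
  have c1 : Continuous (fun p : ℝ × ℝ × ℝ => p.1) := continuous_fst
  have c2 : Continuous (fun p : ℝ × ℝ × ℝ => p.2.1 + p.1) :=
    (continuous_fst.comp continuous_snd).add continuous_fst
  have c3 : Continuous (fun p : ℝ × ℝ × ℝ => p.2.2 + p.1) :=
    (continuous_snd.comp continuous_snd).add continuous_fst
  exact (isClosed_le continuous_const c1).inter ((isClosed_le c1 continuous_const).inter
    ((isClosed_le continuous_const c2).inter ((isClosed_le c2 continuous_const).inter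
    ((isClosed_le continuous_const c3).inter (isClosed_le c3 continuous_const)))))

/-- Every symbol sequence is realised by an orbit. -/
theorem exists_orbit (s : ℕ → Bool) : ∃ p : ℝ × ℝ × ℝ, ∀ j, G^[j] p ∈ Box (s j) := by
  let f : ℝ → ℝ × ℝ × ℝ := fun v => (v, 12000 - v, 2000 - v)
  have hf : Continuous f :=
    continuous_id.prodMk ((continuous_const.sub continuous_id).prodMk
      (continuous_const.sub continuous_id))
  let C : ℕ → Set ℝ := fun k => {t | t ∈ Icc (lo (s 0)) (hi (s 0)) ∧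
    ∀ j ≤ k, G^[j] (f t) ∈ Box (s j)}
  have hCclosed : ∀ k, IsClosed (C k) := by
    intro k
    have : C k = Icc (lo (s 0)) (hi (s 0)) ∩
        ⋂ j ∈ {j | j ≤ k}, (fun t => G^[j] (f t)) ⁻¹' Box (s j) := by
      ext t
      simp only [C, mem_ofPred_eq, mem_inter_iff, mem_iInter, mem_preimage]
    rw [this]
    refine isClosed_Icc.inter (isClosed_biInter fun j _ => ?_)
    exact (Box_closed _).preimage ((G_continuous.iterate j).comp hf)
  have hne : (⋂ k, C k).Nonempty := by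
    refine IsCompact.nonempty_iInter_of_sequence_nonempty_isCompact_isClosed C ?_ ?_ ?_ hCclosed
    · intro k t ht
      exact ⟨ht.1, fun j hj => ht.2 j (by omega)⟩
    · intro k
      obtain ⟨t, ht, htj⟩ := chain k s f (lo (s 0)) (hi (s 0)) (lo_lt_hi _).le hf.continuousOn
        (by
          intro t ht
          refine ⟨ht.1, ht.2, ?_, ?_, ?_, ?_⟩ <;> simp only [f] <;> linarith)
        (Or.inl ⟨rfl, rfl⟩)
      exact ⟨t, ht, htj⟩
    · exact isCompact_Icc.of_isClosed_subset (hCclosed 0) (fun t ht => ht.1)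
  obtain ⟨t, ht⟩ := hne
  rw [mem_iInter] at ht
  exact ⟨f t, fun j => (ht j).2 j le_rfl⟩

end Pool.Agent.W_MP_415091_an
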